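import Mathlib
import Pool.Agent.Lib.H88M.Maximal

/-!
Partial answer to Q1 of MP_218f97_co: the known extremal families, with `(r - 1) / 2` members, are
maximal, and every symmetric Latin square agrees with such a family in an odd number of pairs of
each symbol.

Proof (Lib/H88M). Let `n = (r - 1) / 2`, odd, and fix a symbol `c`. The pairs `{i, j}` with
`f i j = c` for some member `f` form an `n`-regular graph on the `2 n` points different from `c`; if
it is bipartite, with sides `A` and `B`, then `|A| = |B| = n` and the graph is the complete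
bipartite graph. The pairs with symbol `c` in a further square `g` form a perfect matching of the
`2 n` points; the points of `A` matched inside `A` are even in number, so an odd number of points
of `A` is matched to `B`, by pairs of the graph. For the family of the squares
`(x + y) / 2 + l |x - y|`, `l ^ 2 - 1 / 4` a nonsquare, the graph joins `x` and `y` exactly if
`(x - c) (y - c)` is a nonsquare, so it is bipartite.
-/

namespace Pool.Agent.Results.MP_218f97_co.MaximalFamilies

open Pool.Agent.Lib.H97P Pool.Agent.Lib.H88M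

theorem result :
    (∀ r : ℕ, r % 4 = 3 → ∀ S : Finset (Fin r → Fin r → Fin r), (∀ f ∈ S, IsSLS f) →
      (∀ f ∈ S, ∀ g ∈ S, f ≠ g → Orth f g) → 2 * S.card = r - 1 →
      ∀ (c : Fin r) (X : Set (Fin r)),
      (∀ f ∈ S, ∀ i j, i ≠ j → f i j = c → (i ∈ X ↔ j ∉ X)) →
      (∀ g, IsSLS g → Odd (agree S g c).card) ∧
      (∀ T : Finset (Fin r → Fin r → Fin r), (∀ f ∈ T, IsSLS f) →
        (∀ f ∈ T, ∀ g ∈ T, f ≠ g → Orth f g) → S ⊆ T → T = S)) ∧
    (∀ (F : Type) [Field F] [Fintype F] (r : ℕ), Fintype.card F = r → r % 4 = 3 →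
      ∀ φ : Fin r ≃ F, ∃ S : Finset (Fin r → Fin r → Fin r),
      (∀ f, f ∈ S ↔ ∃ l : F, ¬ IsSquare (l ^ 2 - 1 / 4) ∧
        ∀ i j, φ (f i j) = (φ i + φ j) / 2 + l * ab (φ i - φ j)) ∧
      (∀ f ∈ S, IsSLS f) ∧ (∀ f ∈ S, ∀ g ∈ S, f ≠ g → Orth f g) ∧ 2 * S.card = r - 1 ∧
      (∀ g, IsSLS g → ∀ c, Odd (agree S g c).card) ∧
      (∀ g, IsSLS g → r ≤ (agreeAll S g).card) ∧
      (∀ T : Finset (Fin r → Fin r → Fin r), (∀ f ∈ T, IsSLS f) →
        (∀ f ∈ T, ∀ g ∈ T, f ≠ g → Orth f g) → S ⊆ T → T = S)) := by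
  refine ⟨fun r hr S hS ho hc c X hX => ?_, fun F _ _ r hF hr φ => ?_⟩
  · have h := fun g (hg : IsSLS g) => odd_agree hr hS ho hc c X hX hg
    exact ⟨h, fun T hT hTo hST => maximal_of S c h T hT hTo hST⟩
  · have hq : Fintype.card F % 4 = 3 := by rw [hF]; exact hr
    have h : ∀ g, IsSLS g → ∀ c, Odd (agree (fam φ) g c).card := fun g hg c =>
      odd_agree hr (fam_sls hq φ) (fam_orth hq φ) (fam_card hF hr φ) c _ (fam_bip hq φ c) hg
    have hr0 : 0 < r := by omega
    refine ⟨fam φ, fun f => mem_fam φ, fam_sls hq φ, fam_orth hq φ, fam_card hF hr φ, h, ?_, ?_⟩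
    · intro g hg
      rw [card_agreeAll]
      calc r = ∑ _c : Fin r, 1 := by simp
        _ ≤ ∑ c : Fin r, (agree (fam φ) g c).card :=
          Finset.sum_le_sum fun c _ => (h g hg c).pos
    · exact fun T hT hTo hST =>
        maximal_of (fam φ) ⟨0, hr0⟩ (fun g hg => h g hg _) T hT hTo hST

end Pool.Agent.Results.MP_218f97_co.MaximalFamilies
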