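import Mathlib
import Pool.Agent.Lib.H97P.Embedded
import Pool.Agent.Lib.H97P.Sharp

/-!
Partial answer to Q1 of MP_218f97_co: families of pairwise orthogonal symmetric Latin squares whose
members are relabelled linear combinations of two arrays over a field of order `r`.

Proof (Lib/H97P). Suppose the family has at least `(r + 1) / 2` members. After a linear change of
the two arrays the members are relabellings of `A' + l B'` with at least `(r + 1) / 2` values `l`,
and `B'` is constant on the diagonal (for prime `r` the direction of `B'` is that of a line through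
two diagonal points, and the lacunary polynomial lemma below forces all diagonal points onto this
line). Orthogonality shows that `B'` takes the diagonal value nowhere else. For every row `i` the
coefficients of `∏ (X + A' i t + l B' i t)` are polynomials in `l` of small degree with many zeros,
hence `∏ (X + B' i t) = X ^ r + h` with `deg h ≤ (r - 1) / 2` (Redei, Szonyi); the polynomial
splits, its distinct roots are roots of `h + X`, the multiple ones are roots of `h'`; so it divides
`(h + X) h'`, which has degree `< r`. As the root coming from the diagonal is simple, `h' ≠ 0`, so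
`h = -X` and the row `B' i` is a bijection. But a symmetric array of odd side with bijective rows
cannot have a constant diagonal.
-/

namespace Pool.Agent.Results.MP_218f97_co.PlaneFamilies

open Pool.Agent.Lib.H97P

theorem result :
    (∀ (F : Type) [Field F] [Fintype F] (r : ℕ), Fintype.card F = r → Odd r →
      ∀ A B : Fin r → Fin r → F, (r.Prime ∨ DiagCollinear A B) →
      ∀ S : Finset (Fin r → Fin r → Fin r), (∀ f ∈ S, IsSLS f) →
      (∀ f ∈ S, ∀ g ∈ S, f ≠ g → Orth f g) →
      (∀ f ∈ S, ∃ (α β : F) (ψ : F → Fin r), ∀ i j, f i j = ψ (α * A i j + β * B i j)) →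
      2 * S.card ≤ r - 1) ∧
    (∀ (F : Type) [Field F] [Fintype F] (r : ℕ), Fintype.card F = r → Odd r →
      ∀ (φ : Fin r ≃ F) (A B : Fin r → Fin r → F)
      (S : Finset (Fin r → Fin r → Fin r)), (∀ f ∈ S, IsSLS f) →
      (∀ f ∈ S, ∀ g ∈ S, f ≠ g → Orth f g) →
      (∀ f ∈ S, ∃ l : F, ∀ i j, φ (f i j) = A i j + l * B i j) →
      2 * S.card ≤ r - 1) ∧
    (∀ (F : Type) [Field F] [Fintype F] (r : ℕ), Fintype.card F = r → r % 4 = 3 →
      ∀ φ : Fin r ≃ F, ∃ (A B : Fin r → Fin r → F) (S : Finset (Fin r → Fin r → Fin r)),
      (∀ f ∈ S, IsSLS f) ∧ (∀ f ∈ S, ∀ g ∈ S, f ≠ g → Orth f g) ∧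
      (∀ f ∈ S, ∃ l : F, ∀ i j, φ (f i j) = A i j + l * B i j) ∧ 2 * S.card = r - 1) :=
  ⟨fun _ _ _ _ hF hr A B hcase S hS ho hl => embedded hF hr A B hcase S hS ho hl,
    fun _ _ _ _ _ hr φ A B S hS ho hl => part1 hr φ A B S hS ho hl,
    fun _ _ _ _ hF hr φ => sharp hF hr φ⟩

end Pool.Agent.Results.MP_218f97_co.PlaneFamilies
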