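import Mathlib
import Pool.Agent.Lib.H45G.Any
import Pool.Agent.Lib.H45G.Fam

/-!
Partial answer to Q1 of MP_218f97_co: families of pairwise orthogonal symmetric Latin squares of
side `r` with common automorphisms.

A symmetric Latin square `f` with diagonal `(1, …, r)` is a one-factorization of the complete graph
on the points `1, …, r, ∞`: the pair `{i, j}` has the colour `f i j` and the pair `{i, ∞}` the
colour `i`. Let `G` be the group of the permutations of the `r + 1` points which are automorphisms
of the one-factorizations of all members.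

* Involutions `t` without fixed points: the `(r + 1) / 2` edges `{x, t x}` are invariant, so the
  factors containing them are invariant; every other edge lies in an invariant factor of at most
  one member, and two edges `{x, t x}` lie in a common factor of at most one member. Counting and
  the Cauchy-Schwarz inequality give `|S| (|S| - 3) ≤ r - 1`.
* Elements of odd prime order `p` without fixed points: as `p` divides the number `r + 1` of the
  points, the number of the invariant factors of a member is congruent to `- 1` modulo `p`; the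
  invariant factors of different members have no edge in common.
* Involutions with two fixed points: the factor containing an edge `{x, t x}` contains the edge of
  the fixed points, so `|S| ≤ 1`.
* Elements with `n ≥ 3` fixed points: the fixed points form a subsystem, so `|S| ≤ n - 3`; for a
  point `z` which is not fixed the partners of `z` in the `n - 1` factors with an edge between
  fixed points are, except the image of `z`, different for different members, so
  `|S| (n - 2) ≤ r - 1 - n`.
* Otherwise, for different points `a, b, u` the partner of `u` in the factor containing `{a, b}` is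
  outside the orbit of `u` under the stabiliser of `a` and `b`.
-/

namespace Pool.Agent.Results.MP_218f97_co.SharedSymmetry

open Pool.Agent.Lib.H97P Pool.Agent.Lib.H45G

/-- The group of the permutations of the points `1, …, r, ∞` which are automorphisms of the
one-factorizations `ext f` of all members `f` of `S`. -/
def G {r : ℕ} (S : Finset (Fin r → Fin r → Fin r)) : Subgroup (Equiv.Perm (Option (Fin r))) :=
  Grp (famS S)

theorem mem_G {r : ℕ} (S : Finset (Fin r → Fin r → Fin r)) (g : Equiv.Perm (Option (Fin r))) :
    g ∈ G S ↔ ∀ f ∈ S, ∀ a b c d, a ≠ b → c ≠ d →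
      (ext f a b = ext f c d ↔ ext f (g a) (g b) = ext f (g c) (g d)) :=
  ⟨fun h f hf => h ⟨f, hf⟩, fun h f => h f.1 f.2⟩

theorem result :
    (∀ (r : ℕ) (S : Finset (Fin r → Fin r → Fin r)), 5 ≤ r → (∀ f ∈ S, IsSLS f) →
      (∀ f ∈ S, ∀ g ∈ S, f ≠ g → Orth f g) →
      -- the inequality of Q1
      (9 ≤ r → 2 ∣ Nat.card (G S) ∨
        (∃ g ∈ G S, g ≠ 1 ∧ {x | g x = x}.ncard ≠ 1 ∧ {x | g x = x}.ncard ≠ 2) ∨
        (∃ a b, a ≠ b ∧ r ≤ 2 * {g | g ∈ G S ∧ g a = a ∧ g b = b}.ncard + 1) →
        2 * S.card ≤ r - 1) ∧
      -- groups of even order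
      (2 ∣ Nat.card (G S) → S.card * S.card ≤ 3 * S.card + (r - 1)) ∧
      -- elements of odd prime order without fixed points
      (∀ g ∈ G S, (orderOf g).Prime → orderOf g ≠ 2 → (∀ x, g x ≠ x) →
        (S.card + 1) * (orderOf g - 1) ≤ r) ∧
      -- elements with at least three fixed points
      (∀ g ∈ G S, g ≠ 1 → 3 ≤ {x | g x = x}.ncard → (S.card + 1) ^ 2 + 3 ≤ r) ∧
      -- stabilisers of two points
      (∀ a b, a ≠ b → 2 ∣ Nat.card (G S) ∨ (S.card + 1) ^ 2 + 3 ≤ r ∨
        S.card + {g | g ∈ G S ∧ g a = a ∧ g b = b}.ncard + 1 ≤ r) ∧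
      -- groups with more than one element
      (9 ≤ r → (∃ g ∈ G S, g ≠ 1) → S.card + 3 ≤ r)) ∧
    -- sharpness
    (∀ (F : Type) [Field F] [Fintype F] (r : ℕ), Fintype.card F = r → 5 ≤ r → r % 4 = 3 →
      ∃ S : Finset (Fin r → Fin r → Fin r), (∀ f ∈ S, IsSLS f) ∧
        (∀ f ∈ S, ∀ g ∈ S, f ≠ g → Orth f g) ∧ 2 * S.card = r - 1 ∧
        ∃ a b, a ≠ b ∧ r ≤ 2 * {g | g ∈ G S ∧ g a = a ∧ g b = b}.ncard + 1) := by
  classical
  constructor
  · intro r S hr hS ho
    have hcV : Fintype.card (Option (Fin r)) = r + 1 := by
      rw [Fintype.card_option, Fintype.card_fin]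
    have hcS : Fintype.card S = S.card := Fintype.card_coe S
    have hF := famS_of hS
    have hO := famS_ortho hS ho
    have hV : 6 ≤ Fintype.card (Option (Fin r)) := by rw [hcV]; omega
    have h1 : 2 ∣ Nat.card (G S) → S.card * S.card ≤ 3 * S.card + (r - 1) := by
      intro h
      have h' := even_order (famS S) hF hO hV h
      rw [hcV, hcS] at h'
      have : r + 1 - 2 = r - 1 := by omega
      rw [this] at h'
      exact h'
    have h2 : ∀ g ∈ G S, g ≠ 1 → 3 ≤ {x | g x = x}.ncard → (S.card + 1) ^ 2 + 3 ≤ r := by
      intro g hg hg1 h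
      obtain ⟨a, b, c, ha, hb, hc, hab, hac, hbc⟩ :=
        (Set.two_lt_ncard_iff (Set.toFinite {x | g x = x})).1 h
      have h' := three_fixed (famS S) hF hO hg hg1 hab (Ne.symm hac) (Ne.symm hbc) ha hb hc
      rw [hcV, hcS] at h'
      rcases h' with h' | h'
      · rw [h']
        omega
      · omega
    have h3 : ∀ a b, a ≠ b → 2 ∣ Nat.card (G S) ∨ (S.card + 1) ^ 2 + 3 ≤ r ∨
        S.card + {g | g ∈ G S ∧ g a = a ∧ g b = b}.ncard + 1 ≤ r := by
      intro a b hab
      have h' := stab_main (famS S) hF hO hV hab
      rw [hcV, hcS] at h'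
      rcases h' with h' | h' | h'
      · exact Or.inl h'
      · right; left; omega
      · right; right
        have : S.card + (stabV (famS S) a b).ncard + 1 ≤ r := by omega
        exact this
    have hfree : 9 ≤ r → ∀ g ∈ G S, (∀ x, g x ≠ x) → 2 * S.card ≤ r - 1 := by
      intro h9 g hg hgf
      have h' := free_half (famS S) hF hO (by rw [hcV]; omega) hg hgf
      rw [hcV, hcS] at h'
      omega
    have heven : 9 ≤ r → 2 ∣ Nat.card (G S) → 2 * S.card ≤ r - 1 := by
      intro h9 h
      have h' := even_half (famS S) hF hO (by rw [hcV]; omega) h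
      rw [hcV, hcS] at h'
      omega
    refine ⟨?_, h1, ?_, h2, h3, ?_⟩
    · intro h9 h
      rcases h with h | ⟨g, hg, hg1, n1, n2⟩ | ⟨a, b, hab, h⟩
      · exact heven h9 h
      · by_cases h0 : {x | g x = x}.ncard = 0
        · rw [Set.ncard_eq_zero] at h0
          refine hfree h9 g hg fun x hx => ?_
          have : x ∈ ({x | g x = x} : Set _) := hx
          rw [h0] at this
          exact this
        · have h' := h2 g hg hg1 (by omega)
          have h'' := (sq_bound (k := S.card) (v := r + 1) (by omega)).1
          omega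
      · rcases h3 a b hab with h' | h' | h'
        · exact heven h9 h'
        · have h'' := (sq_bound (k := S.card) (v := r + 1) (by omega)).1
          omega
        · omega
    · intro g hg hp hp2 hgf
      have h' := free_odd (famS S) hF hO hg hp hp2 (pow_orderOf_eq_one g) hgf ⟨none⟩
      rw [hcV, hcS] at h'
      omega
    · rintro h9 ⟨g, hg, hg1⟩
      by_cases hfix : ∃ a, g a = a
      · obtain ⟨a, ha⟩ := hfix
        have h' := fixed_aut (famS S) hF hO hV hg hg1 ha
        rw [hcV, hcS] at h'
        omega
      · push Not at hfix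
        have := hfree h9 g hg hfix
        omega
  · intro F _ _ r hF hr5 hr
    have hq : Fintype.card F % 4 = 3 := by rw [hF]; exact hr
    let φ : Fin r ≃ F := (Fintype.equivFinOfCardEq hF).symm
    obtain ⟨a, b, hab, h⟩ := fam_stab hr5 hq φ
    exact ⟨Pool.Agent.Lib.H88M.fam φ, Pool.Agent.Lib.H88M.fam_sls hq φ,
      Pool.Agent.Lib.H88M.fam_orth hq φ, Pool.Agent.Lib.H88M.fam_card hF hr φ, a, b, hab, h⟩

end Pool.Agent.Results.MP_218f97_co.SharedSymmetry
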